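import Pool.Agent.P.MP_df609a_nt.Dt.Fin

/-! The number of sporadic solutions of the divisor sum congruence. -/

theorem Pool.Agent.Results.MP_df609a_nt.CountingExp.result (a : ℕ) (ha : 1 ≤ a) :
    ∃ c : ℝ, 0 < c ∧ ∃ x₀ : ℝ, ∀ x : ℝ, x₀ ≤ x →
      (Set.ncard {n : ℕ | (n : ℝ) ≤ x ∧ (∑ d ∈ n.divisors, d) ≡ a [MOD n] ∧
          ¬ ∃ p m : ℕ, p.Prime ∧ ¬ p ∣ m ∧ m ∣ (∑ d ∈ m.divisors, d) ∧
            (∑ d ∈ m.divisors, d) = a ∧ n = p * m} : ℝ) ≤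
        √x * Real.exp (-(c * Real.log x ^ (1 / 3 : ℝ))) :=
  ⟨1 / 8000000, by norm_num,
    Filter.eventually_atTop.1 (Pool.Agent.P.MP_df609a_nt.Dt.count a ha)⟩
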