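import Pool.Agent.P.MP_df609a_nt.Main

theorem Pool.Agent.Results.MP_df609a_nt.FourPrimes.result :
    ∀ x : ℕ, (∑ d ∈ x.divisors, d) % x = 5 → 4 ≤ x.primeFactors.card :=
  fun _ h => Pool.Agent.P.MP_df609a_nt.four_le h
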