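import Pool.Agent.P.MP_df609a_nt.Odd.Main

theorem Pool.Agent.Results.MP_df609a_nt.OddSevenPrimes.result :
    ∀ x : ℕ, Odd x → (∑ d ∈ x.divisors, d) % x = 5 → 7 ≤ x.primeFactors.card :=
  fun _ ho h => Pool.Agent.P.MP_df609a_nt.Odd.seven_le ho h
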